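import Mathlib

set_option autoImplicit false

/-!
# A spectrally arbitrary sign pattern with a superpattern that is not spectrally arbitrary

`P = M₄ ⊕ T₂` is spectrally arbitrary.  The superpattern `Q` is obtained from `P` by replacing the
zero entry in position `(1, 4)` by `+`; it is not potentially nilpotent, hence not spectrally
arbitrary.
-/

namespace Pool.Agent.Results.MP_557f7f_co.SpectralSuperpattern

open Polynomial Matrix

/-- `A` is a realization of the sign pattern `S`. -/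
def Realizes {n : ℕ} (A : Matrix (Fin n) (Fin n) ℝ) (S : Matrix (Fin n) (Fin n) SignType) : Prop :=
  ∀ i j, SignType.sign (A i j) = S i j

/-- The sign pattern `S` is spectrally arbitrary: every monic real polynomial of degree `n` is the
characteristic polynomial of a realization of `S`. -/
def SpectrallyArbitrary {n : ℕ} (S : Matrix (Fin n) (Fin n) SignType) : Prop :=
  ∀ f : ℝ[X], f.Monic → f.natDegree = n →
    ∃ A : Matrix (Fin n) (Fin n) ℝ, Realizes A S ∧ A.charpoly = f

/-- `S'` is a superpattern of `S`: it agrees with `S` at every nonzero entry of `S`. -/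
def IsSuperpattern {n : ℕ} (S' S : Matrix (Fin n) (Fin n) SignType) : Prop :=
  ∀ i j, S i j ≠ 0 → S' i j = S i j

/-- The pattern `M₄`. -/
def M4 : Matrix (Fin 4) (Fin 4) SignType :=
  !![1, 1, -1, 0;
     -1, -1, 1, 0;
     0, 0, 0, -1;
     1, 1, 0, 0]

/-- The pattern `T₂`. -/
def T2 : Matrix (Fin 2) (Fin 2) SignType := !![1, 1; -1, -1]

/-- The pattern `M₄ ⊕ T₂`. -/
def P : Matrix (Fin 6) (Fin 6) SignType :=
  !![1, 1, -1, 0, 0, 0;
     -1, -1, 1, 0, 0, 0;
     0, 0, 0, -1, 0, 0;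
     1, 1, 0, 0, 0, 0;
     0, 0, 0, 0, 1, 1;
     0, 0, 0, 0, -1, -1]

/-- The superpattern of `M₄ ⊕ T₂` with a `+` in position `(1, 4)`. -/
def Q : Matrix (Fin 6) (Fin 6) SignType :=
  !![1, 1, -1, 1, 0, 0;
     -1, -1, 1, 0, 0, 0;
     0, 0, 0, -1, 0, 0;
     1, 1, 0, 0, 0, 0;
     0, 0, 0, 0, 1, 1;
     0, 0, 0, 0, -1, -1]

/-! ### Characteristic polynomials -/

theorem charpoly4 (a b c d e f g h k t : ℝ) :
    (!![a, b, -c, t; -d, -e, f, 0; 0, 0, 0, -g; h, k, 0, 0] :
      Matrix (Fin 4) (Fin 4) ℝ).charpoly =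
      X ^ 4 - C (a - e) * X ^ 3 + C (b * d - a * e - t * h) * X ^ 2
        - C (g * (c * h - f * k) + t * (e * h - d * k)) * X
        + C (g * (b * f * h + c * d * k - e * c * h - a * f * k)) := by
  have h1 : charmatrix (!![a, b, -c, t; -d, -e, f, 0; 0, 0, 0, -g; h, k, 0, 0] :
      Matrix (Fin 4) (Fin 4) ℝ) =
      !![X - C a, -C b, C c, -C t; C d, X + C e, -C f, 0; 0, 0, X, C g; -C h, -C k, 0, X] := by
    ext i j : 2
    fin_cases i <;> fin_cases j <;> simp
  rw [Matrix.charpoly, h1]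
  simp [Matrix.det_succ_row_zero, Fin.sum_univ_succ, Fin.succAbove]
  ring

theorem charpoly2 (a b d e : ℝ) :
    (!![a, b; -d, -e] : Matrix (Fin 2) (Fin 2) ℝ).charpoly =
      X ^ 2 - C (a - e) * X + C (b * d - a * e) := by
  have h1 : charmatrix (!![a, b; -d, -e] : Matrix (Fin 2) (Fin 2) ℝ) =
      !![X - C a, -C b; C d, X + C e] := by
    ext i j : 2
    fin_cases i <;> fin_cases j <;> simp
  rw [Matrix.charpoly, h1, Matrix.det_fin_two]
  simp
  ring

/-! ### Realizations -/

theorem realize_T2 (u v : ℝ) : ∃ B : Matrix (Fin 2) (Fin 2) ℝ, Realizes B T2 ∧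
    B.charpoly = X ^ 2 + C u * X + C v := by
  set e : ℝ := |u| + |v| + 1 with he
  have n1 := abs_nonneg u
  have n2 := abs_nonneg v
  have l1 := le_abs_self u
  have l2 := neg_abs_le v
  have ha : 1 + |v| ≤ e - u := by linarith
  have he1 : 1 + |v| ≤ e := by linarith
  have hd : 0 < v + (e - u) * e := by nlinarith
  refine ⟨!![e - u, 1; -(v + (e - u) * e), -e], ?_, ?_⟩
  · have ha0 : 0 < e - u := by linarith
    have he0 : 0 < e := by linarith
    intro i j
    fin_cases i <;> fin_cases j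
    · exact sign_pos ha0
    · exact sign_pos one_pos
    · exact sign_neg (neg_neg_of_pos hd)
    · exact sign_neg (neg_neg_of_pos he0)
  · rw [charpoly2]
    have h1 : e - u - e = -u := by ring
    have h2 : 1 * (v + (e - u) * e) - (e - u) * e = v := by ring
    rw [h1, h2, C_neg]
    ring

theorem realize_M4_aux (a b c d e f : ℝ) (ha : 0 < a) (hb : 0 < b) (hc : 0 < c) (hd : 0 < d)
    (he : 0 < e) (hf : 0 < f) :
    ∃ A : Matrix (Fin 4) (Fin 4) ℝ, Realizes A M4 ∧ A.charpoly =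
      X ^ 4 - C (a - e) * X ^ 3 + C (b * d - a * e) * X ^ 2 - C (c - f) * X
        + C (b * f + c * d - e * c - a * f) := by
  refine ⟨!![a, b, -c, 0; -d, -e, f, 0; 0, 0, 0, -1; 1, 1, 0, 0], ?_, ?_⟩
  · intro i j
    fin_cases i <;> fin_cases j
    · exact sign_pos ha
    · exact sign_pos hb
    · exact sign_neg (neg_neg_of_pos hc)
    · exact sign_zero
    · exact sign_neg (neg_neg_of_pos hd)
    · exact sign_neg (neg_neg_of_pos he)
    · exact sign_pos hf
    · exact sign_zero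
    · exact sign_zero
    · exact sign_zero
    · exact sign_zero
    · exact sign_neg (neg_neg_of_pos one_pos)
    · exact sign_pos one_pos
    · exact sign_pos one_pos
    · exact sign_zero
    · exact sign_zero
  · rw [charpoly4]
    have h1 : b * d - a * e - 0 * 1 = b * d - a * e := by ring
    have h2 : 1 * (c * 1 - f * 1) + 0 * (e * 1 - d * 1) = c - f := by ring
    have h3 : 1 * (b * f * 1 + c * d * 1 - e * c * 1 - a * f * 1) =
      b * f + c * d - e * c - a * f := by ring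
    rw [h1, h2, h3]

/-- All quartics with positive constant coefficient are realized by `M₄`. -/
theorem realize_pos (u1 u2 u3 u4 : ℝ) (h4 : 0 < u4) :
    ∃ A : Matrix (Fin 4) (Fin 4) ℝ, Realizes A M4 ∧
      A.charpoly = X ^ 4 + C u1 * X ^ 3 + C u2 * X ^ 2 + C u3 * X + C u4 := by
  set s : ℝ := |u1| + 2 * |u2| + 1 with hs
  have n1 := abs_nonneg u1
  have n2 := abs_nonneg u2
  have l1 := le_abs_self u1
  have l1' := neg_abs_le u1
  have l2 := neg_abs_le u2
  set a : ℝ := (s - u1) / 2 with ha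
  set e : ℝ := (s + u1) / 2 with he
  have ha0 : 0 < a := by rw [ha]; linarith
  have he0 : 0 < e := by rw [he]; linarith
  set B : ℝ := u2 + a * e with hB
  have hB0 : 0 < B := by
    have h1 : a * e = (s ^ 2 - u1 ^ 2) / 4 := by rw [ha, he]; ring
    have h2 : |u1| ^ 2 = u1 ^ 2 := sq_abs u1
    have h3 : s ^ 2 - |u1| ^ 2 = (2 * |u2| + 1) * (2 * |u1| + 2 * |u2| + 1) := by rw [hs]; ring
    have h4 : 1 + 4 * |u2| ≤ (2 * |u2| + 1) * (2 * |u1| + 2 * |u2| + 1) := by nlinarith
    rw [hB, h1, ← h2, h3]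
    linarith
  set m : ℝ := |u3| with hm
  have hm0 : 0 ≤ m := abs_nonneg u3
  set η : ℝ := min 1 (u4 ^ 2 / (4 * B * (1 + m))) with hη
  have hη0 : 0 < η := by
    rw [hη]
    exact lt_min one_pos (by positivity)
  have hη1 : η ≤ 1 := min_le_left _ _
  have hη2 : 4 * B * (η * (η + m)) ≤ u4 ^ 2 := by
    have h1 : η ≤ u4 ^ 2 / (4 * B * (1 + m)) := min_le_right _ _
    rw [le_div_iff₀ (by positivity)] at h1
    calc 4 * B * (η * (η + m)) ≤ 4 * B * (η * (1 + m)) := by
          apply mul_le_mul_of_nonneg_left _ (by positivity)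
          apply mul_le_mul_of_nonneg_left _ hη0.le
          linarith
      _ = η * (4 * B * (1 + m)) := by ring
      _ ≤ u4 ^ 2 := h1
  -- the two products of 3-cycles
  obtain ⟨H, K, hH0, hK0, hHK, hprod⟩ : ∃ H K : ℝ, 0 < H ∧ 0 < K ∧ H - K = -u3 ∧
      H * K = η * (η + m) := by
    rcases le_total 0 u3 with h | h
    · refine ⟨η, η + m, hη0, by linarith, ?_, rfl⟩
      rw [hm, abs_of_nonneg h]; ring
    · refine ⟨η + m, η, by linarith, hη0, ?_, by ring⟩
      rw [hm, abs_of_nonpos h]; ring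
  set Y : ℝ := u4 + e * H + a * K with hY
  have hY0 : u4 ≤ Y := by
    have := mul_pos he0 hH0
    have := mul_pos ha0 hK0
    linarith
  set Dsc : ℝ := Y ^ 2 - 4 * B * (H * K) with hD
  have hD0 : 0 ≤ Dsc := by
    rw [hD, hprod]
    have : u4 ^ 2 ≤ Y ^ 2 := by nlinarith
    linarith
  set x : ℝ := (Y + Real.sqrt Dsc) / 2 with hx
  have hx0 : 0 < x := by
    have := Real.sqrt_nonneg Dsc
    rw [hx]; linarith
  have hxx : x ^ 2 - Y * x + B * (H * K) = 0 := by
    have h1 : Real.sqrt Dsc ^ 2 = Dsc := Real.sq_sqrt hD0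
    have h2 : x ^ 2 - Y * x + B * (H * K) = (Real.sqrt Dsc ^ 2 - Dsc) / 4 := by
      rw [hx, hD]; ring
    rw [h2, h1]; ring
  obtain ⟨A, hA1, hA2⟩ := realize_M4_aux a (x / K) H (B * K / x) e K ha0 (by positivity) hH0
    (by positivity) he0 hK0
  refine ⟨A, hA1, ?_⟩
  rw [hA2]
  have e1 : a - e = -u1 := by rw [ha, he]; ring
  have e2 : x / K * (B * K / x) - a * e = u2 := by
    have : x / K * (B * K / x) = B := by field_simp
    rw [this, hB]; ring
  have e4 : x / K * K + H * (B * K / x) - e * H - a * K = u4 := by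
    have h1 : x / K * K = x := by field_simp
    have h2 : H * (B * K / x) = Y - x := by
      field_simp
      linarith
    rw [h1, h2, hY]; ring
  rw [e1, e2, hHK, e4, C_neg, C_neg]
  ring

/-- The quartics `x² (x - r) (x - s)` are realized by `M₄`. -/
theorem realize_zero (r s : ℝ) :
    ∃ A : Matrix (Fin 4) (Fin 4) ℝ, Realizes A M4 ∧
      A.charpoly = X ^ 2 * ((X + C r) * (X + C s)) := by
  set T : ℝ := |r| + |s| + 1 with hT
  have n1 := abs_nonneg r
  have n2 := abs_nonneg s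
  have l1 := le_abs_self r
  have l1' := neg_abs_le r
  have l2 := le_abs_self s
  have l2' := neg_abs_le s
  obtain ⟨A, hA1, hA2⟩ := realize_M4_aux (T - (r + s) / 2) (T + (r - s) / 2) 1 (T - (r - s) / 2)
    (T + (r + s) / 2) 1 (by linarith) (by linarith) one_pos (by linarith) (by linarith) one_pos
  refine ⟨A, hA1, ?_⟩
  rw [hA2]
  have e1 : T - (r + s) / 2 - (T + (r + s) / 2) = -(r + s) := by ring
  have e2 : (T + (r - s) / 2) * (T - (r - s) / 2) - (T - (r + s) / 2) * (T + (r + s) / 2) =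
      r * s := by ring
  have e4 : (T + (r - s) / 2) * 1 + 1 * (T - (r - s) / 2) - (T + (r + s) / 2) * 1 -
      (T - (r + s) / 2) * 1 = 0 := by ring
  rw [e1, e2, e4, sub_self, C_neg, C_add, C_mul, C_0]
  ring

/-- Direct sums of realizations of `M₄` and `T₂` are realizations of `P`. -/
theorem realize_sum (A : Matrix (Fin 4) (Fin 4) ℝ) (B : Matrix (Fin 2) (Fin 2) ℝ)
    (hA : Realizes A M4) (hB : Realizes B T2) :
    ∃ M : Matrix (Fin 6) (Fin 6) ℝ, Realizes M P ∧ M.charpoly = A.charpoly * B.charpoly := by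
  let e : Fin 4 ⊕ Fin 2 ≃ Fin 6 := finSumFinEquiv
  refine ⟨Matrix.reindex e e (Matrix.fromBlocks A 0 0 B), ?_, ?_⟩
  · intro i j
    obtain ⟨i, rfl⟩ := e.surjective i
    obtain ⟨j, rfl⟩ := e.surjective j
    rw [Matrix.reindex_apply, Matrix.submatrix_apply, Equiv.symm_apply_apply,
      Equiv.symm_apply_apply]
    rcases i with i | i <;> rcases j with j | j
    · rw [Matrix.fromBlocks_apply₁₁, hA i j]
      fin_cases i <;> fin_cases j <;> rfl
    · rw [Matrix.fromBlocks_apply₁₂, Matrix.zero_apply, sign_zero]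
      fin_cases i <;> fin_cases j <;> rfl
    · rw [Matrix.fromBlocks_apply₂₁, Matrix.zero_apply, sign_zero]
      fin_cases i <;> fin_cases j <;> rfl
    · rw [Matrix.fromBlocks_apply₂₂, hB i j]
      fin_cases i <;> fin_cases j <;> rfl
  · rw [Matrix.charpoly_reindex, Matrix.charpoly_fromBlocks_zero₁₂]

/-- A quartic with positive constant coefficient times a quadratic is realized by `P`. -/
theorem realize_of_pos (f : ℝ[X]) (u1 u2 v1 v2 w1 w2 : ℝ) (h : 0 < u2 * v2)
    (hf : f = (X ^ 2 + C u1 * X + C u2) * (X ^ 2 + C v1 * X + C v2) *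
      (X ^ 2 + C w1 * X + C w2)) :
    ∃ M : Matrix (Fin 6) (Fin 6) ℝ, Realizes M P ∧ M.charpoly = f := by
  obtain ⟨A, hA1, hA2⟩ := realize_pos (u1 + v1) (u2 + v2 + u1 * v1) (u1 * v2 + u2 * v1)
    (u2 * v2) h
  obtain ⟨B, hB1, hB2⟩ := realize_T2 w1 w2
  obtain ⟨M, hM1, hM2⟩ := realize_sum A B hA1 hB1
  refine ⟨M, hM1, ?_⟩
  rw [hM2, hA2, hB2, hf]
  simp only [C_add, C_mul]
  ring

theorem realize_of_zero (f : ℝ[X]) (r s w1 w2 : ℝ)
    (hf : f = X ^ 2 * ((X + C r) * (X + C s)) * (X ^ 2 + C w1 * X + C w2)) :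
    ∃ M : Matrix (Fin 6) (Fin 6) ℝ, Realizes M P ∧ M.charpoly = f := by
  obtain ⟨A, hA1, hA2⟩ := realize_zero r s
  obtain ⟨B, hB1, hB2⟩ := realize_T2 w1 w2
  obtain ⟨M, hM1, hM2⟩ := realize_sum A B hA1 hB1
  exact ⟨M, hM1, by rw [hM2, hA2, hB2, hf]⟩

/-- The case where one quadratic factor vanishes at `0`, one is negative there and one is
positive there. -/
theorem realize_mixed (f : ℝ[X]) (u1 v1 v2 w1 w2 : ℝ) (hv : v2 < 0) (hw : 0 < w2)
    (hf : f = (X ^ 2 + C u1 * X + C 0) * (X ^ 2 + C v1 * X + C v2) *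
      (X ^ 2 + C w1 * X + C w2)) :
    ∃ M : Matrix (Fin 6) (Fin 6) ℝ, Realizes M P ∧ M.charpoly = f := by
  -- factor the middle quadratic as `(x + r) (x + s)` with `r < 0 < s`
  have hD : 0 ≤ v1 ^ 2 - 4 * v2 := by nlinarith [sq_nonneg v1]
  set δ : ℝ := Real.sqrt (v1 ^ 2 - 4 * v2) with hδ
  have hδ2 : δ ^ 2 = v1 ^ 2 - 4 * v2 := Real.sq_sqrt hD
  have hδ0 : 0 ≤ δ := Real.sqrt_nonneg _
  set r : ℝ := (v1 - δ) / 2 with hr
  set s : ℝ := (v1 + δ) / 2 with hs
  have hrs : r * s = v2 := by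
    have : r * s = (v1 ^ 2 - δ ^ 2) / 4 := by rw [hr, hs]; ring
    rw [this, hδ2]; ring
  have hsum : r + s = v1 := by rw [hr, hs]; ring
  have hle : r ≤ s := by rw [hr, hs]; linarith
  have hr0 : r < 0 := by
    by_contra h
    have h1 : 0 ≤ r := not_lt.1 h
    have : 0 ≤ r * s := mul_nonneg h1 (h1.trans hle)
    linarith
  have hs0 : 0 < s := by
    by_contra h
    have h1 : s ≤ 0 := not_lt.1 h
    have : 0 ≤ r * s := mul_nonneg_of_nonpos_of_nonpos hr0.le h1
    linarith
  have hfac : (X ^ 2 + C v1 * X + C v2 : ℝ[X]) = (X + C r) * (X + C s) := by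
    rw [← hsum, ← hrs, C_add, C_mul]; ring
  rcases lt_trichotomy u1 0 with h | h | h
  · refine realize_of_pos f w1 w2 (u1 + r) (u1 * r) s 0
      (mul_pos hw (mul_pos_of_neg_of_neg h hr0)) ?_
    rw [hf, hfac]
    simp only [C_add, C_mul, C_0]
    ring
  · refine realize_of_zero f r s w1 w2 ?_
    rw [hf, hfac, h]
    simp only [C_0]
    ring
  · refine realize_of_pos f w1 w2 (u1 + s) (u1 * s) r 0 (mul_pos hw (mul_pos h hs0)) ?_
    rw [hf, hfac]
    simp only [C_add, C_mul, C_0]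
    ring

theorem realize_three (f : ℝ[X]) (u1 u2 v1 v2 w1 w2 : ℝ)
    (hf : f = (X ^ 2 + C u1 * X + C u2) * (X ^ 2 + C v1 * X + C v2) *
      (X ^ 2 + C w1 * X + C w2)) :
    ∃ M : Matrix (Fin 6) (Fin 6) ℝ, Realizes M P ∧ M.charpoly = f := by
  by_cases h1 : 0 < u2 * v2
  · exact realize_of_pos f u1 u2 v1 v2 w1 w2 h1 hf
  by_cases h2 : 0 < u2 * w2
  · exact realize_of_pos f u1 u2 w1 w2 v1 v2 h2 (by rw [hf]; ring)
  by_cases h3 : 0 < v2 * w2
  · exact realize_of_pos f v1 v2 w1 w2 u1 u2 h3 (by rw [hf]; ring)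
  -- two vanishing constant coefficients
  have two : ∀ a b c d : ℝ, f = (X ^ 2 + C a * X + C 0) * (X ^ 2 + C b * X + C 0) *
      (X ^ 2 + C c * X + C d) →
      ∃ M : Matrix (Fin 6) (Fin 6) ℝ, Realizes M P ∧ M.charpoly = f := by
    intro a b c d h
    refine realize_of_zero f a b c d ?_
    rw [h, C_0]
    ring
  rcases lt_trichotomy u2 0 with hu | hu | hu <;> rcases lt_trichotomy v2 0 with hv | hv | hv <;>
    rcases lt_trichotomy w2 0 with hw | hw | hw
  · exact absurd (mul_pos_of_neg_of_neg hu hv) h1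
  · exact absurd (mul_pos_of_neg_of_neg hu hv) h1
  · exact absurd (mul_pos_of_neg_of_neg hu hv) h1
  · exact absurd (mul_pos_of_neg_of_neg hu hw) h2
  · exact two v1 w1 u1 u2 (by rw [hf, hv, hw]; ring)
  · exact realize_mixed f v1 u1 u2 w1 w2 hu hw (by rw [hf, hv]; ring)
  · exact absurd (mul_pos_of_neg_of_neg hu hw) h2
  · exact realize_mixed f w1 u1 u2 v1 v2 hu hv (by rw [hf, hw]; ring)
  · exact absurd (mul_pos hv hw) h3
  · exact absurd (mul_pos_of_neg_of_neg hv hw) h3
  · exact two u1 w1 v1 v2 (by rw [hf, hu, hw]; ring)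
  · exact realize_mixed f u1 v1 v2 w1 w2 hv hw (by rw [hf, hu])
  · exact two u1 v1 w1 w2 (by rw [hf, hu, hv])
  · exact two u1 v1 w1 w2 (by rw [hf, hu, hv])
  · exact two u1 v1 w1 w2 (by rw [hf, hu, hv])
  · exact realize_mixed f u1 w1 w2 v1 v2 hw hv (by rw [hf, hu]; ring)
  · exact two u1 w1 v1 v2 (by rw [hf, hu, hw]; ring)
  · exact absurd (mul_pos hv hw) h3
  · exact absurd (mul_pos_of_neg_of_neg hv hw) h3
  · exact realize_mixed f w1 v1 v2 u1 u2 hv hu (by rw [hf, hw]; ring)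
  · exact absurd (mul_pos hu hw) h2
  · exact realize_mixed f v1 w1 w2 u1 u2 hw hu (by rw [hf, hv]; ring)
  · exact two v1 w1 u1 u2 (by rw [hf, hv, hw]; ring)
  · exact absurd (mul_pos hu hw) h2
  · exact absurd (mul_pos hu hv) h1
  · exact absurd (mul_pos hu hv) h1
  · exact absurd (mul_pos hu hv) h1

theorem P_arbitrary : SpectrallyArbitrary P := by
  intro f hf1 hf2
  have h0 : IsMonicOfDegree f (4 + 2) := ⟨hf2, hf1⟩
  obtain ⟨q1, g, hq1, hg, hfg⟩ := h0.eq_isMonicOfDegree_two_mul_isMonicOfDegree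
  have hg' : IsMonicOfDegree g (2 + 2) := hg
  obtain ⟨q2, q3, hq2, hq3, hg2⟩ := hg'.eq_isMonicOfDegree_two_mul_isMonicOfDegree
  obtain ⟨u1, u2, hu⟩ := isMonicOfDegree_two_iff.1 hq1
  obtain ⟨v1, v2, hv⟩ := isMonicOfDegree_two_iff.1 hq2
  obtain ⟨w1, w2, hw⟩ := isMonicOfDegree_two_iff.1 hq3
  exact realize_three f u1 u2 v1 v2 w1 w2 (by rw [hfg, hg2, hu, hv, hw]; ring)

/-! ### The superpattern is not potentially nilpotent -/

/-- The algebraic core: the coefficients of the characteristic polynomial of a realization of the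
upper left block of `Q` cannot all vanish. -/
theorem core (a b c d e f g h k t : ℝ) (ha : 0 < a) (_hb : 0 < b) (hc : 0 < c) (_hd : 0 < d)
    (he : 0 < e) (hf : 0 < f) (hg : 0 < g) (hh : 0 < h) (hk : 0 < k) (ht : 0 < t)
    (h1 : a - e = 0) (h2 : b * d - a * e - t * h = 0)
    (h3 : g * (c * h - f * k) + t * (e * h - d * k) = 0)
    (h4 : g * (b * f * h + c * d * k - e * c * h - a * f * k) = 0) : False := by
  have hae : e = a := by linarith
  subst hae
  have h4' : b * f * h + c * d * k - e * c * h - e * f * k = 0 := by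
    rcases mul_eq_zero.1 h4 with h | h
    · exact absurd h hg.ne'
    · exact h
  set v : ℝ := d * k - e * h with hv
  -- `f * u + c * v = 0` with `u = b h - a k`
  have hu : f * (b * h - e * k) = -(c * v) := by rw [hv]; linarith
  have h3' : g * (c * h - f * k) = t * v := by rw [hv]; linarith
  -- multiply out
  have key : g * f * (t * (h * h) * k) = -(g * c * v ^ 2) - e * t * v ^ 2 := by
    have e1 : b * d = e * e + t * h := by linarith
    have e2 : (b * h) * (d * k) = (e * e + t * h) * (h * k) := by rw [← e1]; ring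
    have e3 : d * k = v + e * h := by rw [hv]; ring
    have e4 : f * (b * h) = e * (f * k) - c * v := by linarith
    have e5 : f * ((b * h) * (d * k)) = (e * (f * k) - c * v) * (v + e * h) := by
      rw [← e4, e3]; ring
    rw [e2] at e5
    have e6 : g * (f * k) = g * (c * h) - t * v := by linarith
    have e7 : f * (t * (h * h) * k) = e * v * (f * k - c * h) - c * v ^ 2 := by
      linear_combination e5
    calc g * f * (t * (h * h) * k) = g * (f * (t * (h * h) * k)) := by ring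
      _ = e * v * (g * (f * k) - g * (c * h)) - g * c * v ^ 2 := by rw [e7]; ring
      _ = -(g * c * v ^ 2) - e * t * v ^ 2 := by rw [e6]; ring
  have p1 : 0 < g * f * (t * (h * h) * k) := by positivity
  have p2 : 0 ≤ g * c * v ^ 2 := by positivity
  have p3 : 0 ≤ e * t * v ^ 2 := by positivity
  linarith

theorem Q_not_arbitrary : ¬ SpectrallyArbitrary Q := by
  intro hQ
  obtain ⟨M, hM, hchar⟩ := hQ (X ^ 6) (monic_X_pow 6) (natDegree_X_pow 6)
  have z : ∀ i j, Q i j = 0 → M i j = 0 := fun i j h => by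
    have := hM i j
    rw [h] at this
    exact sign_eq_zero_iff.1 this
  have p : ∀ i j, Q i j = 1 → 0 < M i j := fun i j h => by
    have := hM i j
    rw [h] at this
    exact sign_eq_one_iff.1 this
  have n : ∀ i j, Q i j = -1 → M i j < 0 := fun i j h => by
    have := hM i j
    rw [h] at this
    exact sign_eq_neg_one_iff.1 this
  let e : Fin 4 ⊕ Fin 2 ≃ Fin 6 := finSumFinEquiv
  set A : Matrix (Fin 4) (Fin 4) ℝ := !![M 0 0, M 0 1, -(-M 0 2), M 0 3;
    -(-M 1 0), -(-M 1 1), M 1 2, 0; 0, 0, 0, -(-M 2 3); M 3 0, M 3 1, 0, 0] with hA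
  set B : Matrix (Fin 2) (Fin 2) ℝ := !![M 4 4, M 4 5; M 5 4, M 5 5] with hB
  have hblock : M = Matrix.reindex e e (Matrix.fromBlocks A 0 0 B) := by
    ext i j
    obtain ⟨i, rfl⟩ := e.surjective i
    obtain ⟨j, rfl⟩ := e.surjective j
    rw [Matrix.reindex_apply, Matrix.submatrix_apply, Equiv.symm_apply_apply,
      Equiv.symm_apply_apply]
    rcases i with i | i <;> rcases j with j | j
    · rw [Matrix.fromBlocks_apply₁₁, hA]
      simp only [neg_neg]
      fin_cases i <;> fin_cases j <;> first | rfl | exact z _ _ rfl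
    · rw [Matrix.fromBlocks_apply₁₂, Matrix.zero_apply]
      fin_cases i <;> fin_cases j <;> exact z _ _ rfl
    · rw [Matrix.fromBlocks_apply₂₁, Matrix.zero_apply]
      fin_cases i <;> fin_cases j <;> exact z _ _ rfl
    · rw [Matrix.fromBlocks_apply₂₂, hB]
      fin_cases i <;> fin_cases j <;> rfl
  have hprod : A.charpoly * B.charpoly = X ^ 6 := by
    rw [← hchar]
    conv_rhs => rw [hblock]
    rw [Matrix.charpoly_reindex, Matrix.charpoly_fromBlocks_zero₁₂]
  have hA4 : A.charpoly = X ^ 4 := by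
    have hdvd : A.charpoly ∣ X ^ 6 := ⟨B.charpoly, hprod.symm⟩
    obtain ⟨i, _, hi⟩ := (dvd_prime_pow prime_X 6).1 hdvd
    have h1 : A.charpoly = X ^ i :=
      eq_of_monic_of_associated A.charpoly_monic (monic_X_pow i) hi
    have h2 : A.charpoly.natDegree = 4 := by
      rw [Matrix.charpoly_natDegree_eq_dim, Fintype.card_fin]
    rw [h1, natDegree_X_pow] at h2
    rw [h1, h2]
  rw [hA, charpoly4] at hA4
  have c3 := congrArg (fun q => q.coeff 3) hA4
  have c2 := congrArg (fun q => q.coeff 2) hA4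
  have c1 := congrArg (fun q => q.coeff 1) hA4
  have c0 := congrArg (fun q => q.coeff 0) hA4
  simp only [coeff_add, coeff_sub, coeff_C_mul, coeff_X_pow, coeff_X, coeff_C, if_true]
    at c3 c2 c1 c0
  norm_num at c3 c2 c1 c0
  have c0' := c0.resolve_left (n 2 3 rfl).ne
  exact core (M 0 0) (M 0 1) (-M 0 2) (-M 1 0) (-M 1 1) (M 1 2) (-M 2 3) (M 3 0) (M 3 1) (M 0 3)
    (p _ _ rfl) (p _ _ rfl) (neg_pos.2 (n _ _ rfl)) (neg_pos.2 (n _ _ rfl))
    (neg_pos.2 (n _ _ rfl)) (p _ _ rfl) (neg_pos.2 (n _ _ rfl)) (p _ _ rfl) (p _ _ rfl)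
    (p _ _ rfl) (by linarith) (by linarith) (by linarith)
    (by linear_combination (-M 2 3) * c0')

theorem agree : ∀ i j, P i j = 0 ∨ Q i j = P i j := by decide

theorem isSuperpattern : IsSuperpattern Q P := fun i j h => (agree i j).resolve_left h

/-- There is a spectrally arbitrary sign pattern with a superpattern that is not spectrally
arbitrary. -/
theorem result : ∃ (n : ℕ) (P Q : Matrix (Fin n) (Fin n) SignType),
    SpectrallyArbitrary P ∧ IsSuperpattern Q P ∧ ¬ SpectrallyArbitrary Q :=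
  ⟨6, P, Q, P_arbitrary, isSuperpattern, Q_not_arbitrary⟩

end Pool.Agent.Results.MP_557f7f_co.SpectralSuperpattern
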